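import Mathlib

/-!
# No inclusions among the classes of arc `k`-visibility graphs

For all `i ≠ j` there is an arc `j`-visibility graph that is not an arc `i`-visibility graph.
-/

set_option autoImplicit false

open Set

namespace Pool.Agent.Results.MP_73fdb2_co.NoInclusion

/-- The closed circular arc about `0` of radius `r` that starts at the angle `s` and has the
angular length `l`. -/
def arc (r s l : ℝ) : Set ℂ := {z | ∃ t ∈ Icc s (s + l), z = r * Complex.exp (t * Complex.I)}

/-- An arc representation: pairwise disjoint nondegenerate circular arcs about `0`, one for each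
`v : V`. Full circles (`len v = 2 * π`) are allowed here. -/
structure ArcRep (V : Type) where
  radius : V → ℝ
  start : V → ℝ
  len : V → ℝ
  radius_pos : ∀ v, 0 < radius v
  len_pos : ∀ v, 0 < len v
  len_le : ∀ v, len v ≤ 2 * Real.pi
  disj : ∀ u v, u ≠ v →
    Disjoint (arc (radius u) (start u) (len u)) (arc (radius v) (start v) (len v))

/-- The arc of the vertex `v`, as a set of points of the plane. -/
def ArcRep.set {V : Type} (R : ArcRep V) (v : V) : Set ℂ :=
  arc (R.radius v) (R.start v) (R.len v)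

/-- `u` and `v` are joined by a line of sight, a segment in a line through `0` with one endpoint
on each of the two arcs, that meets at most `k` further arcs. -/
def ArcRep.Sees {V : Type} (R : ArcRep V) (k : ℕ) (u v : V) : Prop :=
  ∃ p ∈ R.set u, ∃ q ∈ R.set v, Collinear ℝ {0, p, q} ∧
    {w | w ≠ u ∧ w ≠ v ∧ (R.set w ∩ segment ℝ p q).Nonempty}.ncard ≤ k

/-- `G` is an arc `k`-visibility graph, full circles allowed as arcs. -/
def IsArcVisCircles {V : Type} (k : ℕ) (G : SimpleGraph V) : Prop :=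
  ∃ R : ArcRep V, ∀ u v, G.Adj u v ↔ u ≠ v ∧ R.Sees k u v

/-- `G` is an arc `k`-visibility graph with a representation without full circles. -/
def IsArcVis {V : Type} (k : ℕ) (G : SimpleGraph V) : Prop :=
  ∃ R : ArcRep V, (∀ v, R.len v < 2 * Real.pi) ∧ ∀ u v, G.Adj u v ↔ u ≠ v ∧ R.Sees k u v

/-! ### Bars -/

/-- bars `[a w, b w] × {h w}` -/
structure Bars (W : Type) where
  a : W → ℝ
  b : W → ℝ
  h : W → ℝ
  lt : ∀ w, a w < b w
  ne : ∀ u v x, u ≠ v → a u ≤ x → x ≤ b u → a v ≤ x → x ≤ b v → h u ≠ h v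

variable {V W : Type}

def Bars.At (B : Bars W) (w : W) (x : ℝ) : Prop := B.a w ≤ x ∧ x ≤ B.b w

def Bars.blk (B : Bars W) (u v : W) (x : ℝ) : Set W :=
  {w | w ≠ u ∧ w ≠ v ∧ B.At w x ∧ min (B.h u) (B.h v) ≤ B.h w ∧ B.h w ≤ max (B.h u) (B.h v)}

def Bars.Adj (B : Bars W) (k : ℕ) (u v : W) : Prop :=
  ∃ x, B.At u x ∧ B.At v x ∧ (B.blk u v x).ncard ≤ k

/-! ### Geometry -/

noncomputable def e (t : ℝ) : ℂ := Complex.exp (t * Complex.I)

lemma e_ne (t : ℝ) : e t ≠ 0 := Complex.exp_ne_zero _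

lemma e_int (t : ℝ) (n : ℤ) : e (t + n * Real.pi) = Real.cos (n * Real.pi) • e t := by
  unfold e
  rw [Complex.real_smul]
  push_cast
  rw [add_mul, Complex.exp_add, Complex.exp_mul_I (n * Real.pi : ℂ)]
  have h1 : Complex.sin (n * Real.pi) = 0 := by
    have := Real.sin_int_mul_pi n
    exact_mod_cast congrArg Complex.ofReal this
  rw [h1]
  ring

lemma e_key (a b c d : ℝ) (h : c • e b = d • e a) : c * Real.sin (b - a) = 0 ∧
    c * Real.cos (b - a) = d := by
  unfold e at h
  rw [Complex.real_smul, Complex.real_smul] at h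
  have h1 : (c : ℂ) * Complex.exp ((b - a : ℝ) * Complex.I) = d := by
    have h2 : Complex.exp ((b - a : ℝ) * Complex.I) =
        Complex.exp (b * Complex.I) * Complex.exp (-(a * Complex.I)) := by
      rw [← Complex.exp_add]
      congr 1
      push_cast
      ring
    rw [h2, ← mul_assoc, h, mul_assoc, ← Complex.exp_add]
    simp
  rw [Complex.exp_mul_I, ← Complex.ofReal_cos, ← Complex.ofReal_sin] at h1
  have h3 := congrArg Complex.re h1
  have h4 := congrArg Complex.im h1
  simp only [Complex.mul_re, Complex.mul_im, Complex.add_re, Complex.add_im, Complex.ofReal_re,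
    Complex.ofReal_im, Complex.I_re, Complex.I_im] at h3 h4
  constructor
  · linarith
  · linarith

lemma dir_inj {θ a b c d : ℝ} (ha : 0 < a) (ha' : a < Real.pi) (hb : 0 < b) (hb' : b < Real.pi)
    (hc : c ≠ 0) (h : c • e (θ + b) = d • e (θ + a)) : b = a ∧ c = d := by
  obtain ⟨h1, h2⟩ := e_key _ _ _ _ h
  have h3 : Real.sin (θ + b - (θ + a)) = 0 := by
    rcases mul_eq_zero.1 h1 with h | h
    · exact absurd h hc
    · exact h
  rw [show θ + b - (θ + a) = b - a by ring] at h3 h2
  rw [Real.sin_eq_zero_iff_of_lt_of_lt (by linarith) (by linarith)] at h3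
  have h4 : b = a := by linarith
  refine ⟨h4, ?_⟩
  rw [h4, sub_self, Real.cos_zero, mul_one] at h2
  exact h2

lemma mem_seg (w : ℂ) (a b : ℝ) (z : ℂ) :
    z ∈ segment ℝ (a • w) (b • w) ↔ ∃ h, min a b ≤ h ∧ h ≤ max a b ∧ z = h • w := by
  have h1 := image_segment ℝ (LinearMap.toSpanSingleton ℝ ℂ w).toAffineMap a b
  simp only [LinearMap.coe_toAffineMap, LinearMap.toSpanSingleton_apply] at h1
  rw [← h1, segment_eq_uIcc]
  constructor
  · rintro ⟨h, h2, rfl⟩
    exact ⟨h, h2.1, h2.2, rfl⟩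
  · rintro ⟨h, h2, h3, rfl⟩
    exact ⟨h, ⟨h2, h3⟩, rfl⟩

lemma collinear_smul (w : ℂ) (a b : ℝ) : Collinear ℝ {0, a • w, b • w} := by
  rw [collinear_iff_of_mem (p₀ := (0 : ℂ)) (by simp)]
  refine ⟨w, ?_⟩
  intro p hp
  simp only [mem_insert_iff, mem_singleton_iff] at hp
  rcases hp with rfl | rfl | rfl
  · exact ⟨0, by simp⟩
  · exact ⟨a, by simp⟩
  · exact ⟨b, by simp⟩

lemma collinear_mul {p q : ℂ} (hp : p ≠ 0) (h : Collinear ℝ {0, p, q}) : ∃ c : ℝ, q = c • p := by
  rw [collinear_iff_of_mem (p₀ := (0 : ℂ)) (by simp)] at h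
  obtain ⟨v, hv⟩ := h
  obtain ⟨a, ha⟩ := hv p (by simp)
  obtain ⟨b, hb⟩ := hv q (by simp)
  simp only [vadd_eq_add, add_zero] at ha hb
  have ha0 : a ≠ 0 := by
    rintro rfl
    exact hp (by rw [ha]; simp)
  refine ⟨b / a, ?_⟩
  rw [ha, hb, smul_smul, div_mul_cancel₀ _ ha0]

/-- The arcs `f w` of the representation `R` are given by the bars `B`: after cutting along the
line of direction `θ`, they are the bars in the coordinates (angle, signed radius). -/
structure Fit (R : ArcRep V) (f : W → V) (θ : ℝ) (B : Bars W) : Prop where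
  inj : Function.Injective f
  pos : ∀ w, 0 < B.a w
  lt : ∀ w, B.b w < Real.pi
  hne : ∀ w, B.h w ≠ 0
  set_eq : ∀ w, R.set (f w) = {z | ∃ τ, B.At w τ ∧ z = B.h w • e (θ + τ)}

lemma Fit.sees_adj [Finite V] {R : ArcRep V} {f : W → V} {θ : ℝ} {B : Bars W}
    (F : Fit R f θ B) {k : ℕ} {u v : W} (h : R.Sees k (f u) (f v)) : B.Adj k u v := by
  obtain ⟨p, hp, q, hq, hc, hk⟩ := h
  rw [F.set_eq] at hp hq
  obtain ⟨x, hx, rfl⟩ := hp
  obtain ⟨y, hy, rfl⟩ := hq
  obtain ⟨c, hc⟩ := collinear_mul (smul_ne_zero (F.hne u) (e_ne _)) hc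
  rw [smul_smul] at hc
  have hxy := dir_inj ((F.pos u).trans_le hx.1) (hx.2.trans_lt (F.lt u))
    ((F.pos v).trans_le hy.1) (hy.2.trans_lt (F.lt v)) (F.hne v) hc
  obtain ⟨rfl, -⟩ := hxy
  refine ⟨y, hx, hy, le_trans ?_ hk⟩
  refine Set.ncard_le_ncard_of_injOn f ?_ (F.inj.injOn) (Set.toFinite _)
  intro w hw
  obtain ⟨h1, h2, h3, h4, h5⟩ := hw
  refine ⟨fun h => h1 (F.inj h), fun h => h2 (F.inj h), B.h w • e (θ + y), ?_, ?_⟩
  · rw [F.set_eq]
    exact ⟨y, h3, rfl⟩
  · rw [mem_seg]
    exact ⟨_, h4, h5, rfl⟩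

lemma Fit.adj_sees [Finite V] {R : ArcRep V} {f : W → V} {θ : ℝ} {B : Bars W}
    (F : Fit R f θ B) {k : ℕ} {u v : W} {x : ℝ} (hu : B.At u x) (hv : B.At v x)
    (hout : ∀ w ∉ range f, ∀ ρ : ℝ, ρ • e (θ + x) ∉ R.set w)
    (h : (B.blk u v x).ncard ≤ k) : R.Sees k (f u) (f v) := by
  refine ⟨B.h u • e (θ + x), ?_, B.h v • e (θ + x), ?_, collinear_smul _ _ _, ?_⟩
  · rw [F.set_eq]; exact ⟨x, hu, rfl⟩
  · rw [F.set_eq]; exact ⟨x, hv, rfl⟩
  · rw [← Set.ncard_image_of_injective (B.blk u v x) F.inj] at h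
    refine le_trans (Set.ncard_le_ncard ?_ (Set.toFinite _)) h
    rintro w' ⟨h1, h2, z, hz1, hz2⟩
    rw [mem_seg] at hz2
    obtain ⟨g, hg1, hg2, hg3⟩ := hz2
    by_cases hw : w' ∈ range f
    · obtain ⟨w, rfl⟩ := hw
      refine ⟨w, ⟨fun h => h1 (h ▸ rfl), fun h => h2 (h ▸ rfl), ?_⟩, rfl⟩
      rw [F.set_eq] at hz1
      obtain ⟨y, hy, rfl⟩ := hz1
      have := dir_inj ((F.pos u).trans_le hu.1) (hu.2.trans_lt (F.lt u))
        ((F.pos w).trans_le hy.1) (hy.2.trans_lt (F.lt w)) (F.hne w) hg3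
      obtain ⟨rfl, rfl⟩ := this
      exact ⟨hy, hg1, hg2⟩
    · rw [hg3] at hz1
      exact absurd hz1 (hout w' hw g)

lemma mem_arc (r s l : ℝ) (z : ℂ) : z ∈ arc r s l ↔ ∃ t, s ≤ t ∧ t ≤ s + l ∧ z = r • e t := by
  unfold arc e
  constructor
  · rintro ⟨t, ht, rfl⟩
    exact ⟨t, ht.1, ht.2, by rw [Complex.real_smul]⟩
  · rintro ⟨t, h1, h2, rfl⟩
    exact ⟨t, ⟨h1, h2⟩, by rw [Complex.real_smul]⟩

lemma norm_e (t : ℝ) : ‖e t‖ = 1 := Complex.norm_exp_ofReal_mul_I t

lemma exists_fit (R : ArcRep V) (f : W → V) (hf : Function.Injective f) (θ : ℝ)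
    (h : ∀ w, ∀ ρ : ℝ, ρ • e θ ∉ R.set (f w)) : ∃ B : Bars W, Fit R f θ B := by
  have hpi := Real.pi_pos
  set n : W → ℤ := fun w => ⌊(R.start (f w) - θ) / Real.pi⌋ with hn
  set a : W → ℝ := fun w => R.start (f w) - θ - n w * Real.pi with ha
  set b : W → ℝ := fun w => a w + R.len (f w) with hb
  set g : W → ℝ := fun w => R.radius (f w) * Real.cos (n w * Real.pi) with hg
  have h1 : ∀ w, (n w : ℝ) * Real.pi ≤ R.start (f w) - θ := by
    intro w
    have := Int.floor_le ((R.start (f w) - θ) / Real.pi)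
    rwa [le_div_iff₀ hpi] at this
  have h2 : ∀ w, R.start (f w) - θ < (n w + 1) * Real.pi := by
    intro w
    have := Int.lt_floor_add_one ((R.start (f w) - θ) / Real.pi)
    rwa [div_lt_iff₀ hpi] at this
  have hpos : ∀ w, 0 < a w := by
    intro w
    rcases (show 0 ≤ a w by simp only [ha]; linarith [h1 w]).lt_or_eq with h3 | h3
    · exact h3
    · exfalso
      apply h w (R.radius (f w) * Real.cos (n w * Real.pi))
      rw [ArcRep.set, mem_arc]
      refine ⟨θ + n w * Real.pi, ?_, ?_, ?_⟩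
      · simp only [ha] at h3; linarith
      · simp only [ha] at h3; linarith [R.len_pos (f w)]
      · rw [e_int, smul_smul]
  have hlt : ∀ w, b w < Real.pi := by
    intro w
    by_contra h3
    rw [not_lt] at h3
    apply h w (R.radius (f w) * Real.cos ((n w + 1 : ℤ) * Real.pi))
    rw [ArcRep.set, mem_arc]
    refine ⟨θ + (n w + 1 : ℤ) * Real.pi, ?_, ?_, ?_⟩
    · push_cast; linarith [h2 w]
    · simp only [hb, ha] at h3
      push_cast; linarith
    · rw [e_int, smul_smul]
  have hcos : ∀ w, Real.cos (n w * Real.pi) ≠ 0 := by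
    intro w h3
    have h4 := Real.sin_sq_add_cos_sq (n w * Real.pi)
    rw [h3, Real.sin_int_mul_pi] at h4
    norm_num at h4
  have hgne : ∀ w, g w ≠ 0 := fun w => mul_ne_zero (R.radius_pos _).ne' (hcos w)
  have hset : ∀ w, R.set (f w) = {z | ∃ τ, (a w ≤ τ ∧ τ ≤ b w) ∧ z = g w • e (θ + τ)} := by
    intro w
    ext z
    rw [ArcRep.set, mem_arc]
    constructor
    · rintro ⟨t, h3, h4, rfl⟩
      refine ⟨t - θ - n w * Real.pi, ⟨?_, ?_⟩, ?_⟩
      · simp only [ha]; linarith
      · simp only [hb, ha]; linarith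
      · simp only [hg]
        rw [← smul_smul, ← e_int]
        congr 2
        ring
    · rintro ⟨τ, ⟨h3, h4⟩, rfl⟩
      refine ⟨θ + τ + n w * Real.pi, ?_, ?_, ?_⟩
      · simp only [ha] at h3; linarith
      · simp only [hb, ha] at h4; linarith
      · rw [e_int, smul_smul]
  have hne : ∀ u v x, u ≠ v → a u ≤ x → x ≤ b u → a v ≤ x → x ≤ b v → g u ≠ g v := by
    intro u v x huv h3 h4 h5 h6 h7
    have h8 := R.disj (f u) (f v) (fun h => huv (hf h))
    rw [Set.disjoint_left] at h8
    refine h8 (a := g u • e (θ + x)) ?_ ?_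
    · change _ ∈ R.set (f u)
      rw [hset]; exact ⟨x, ⟨h3, h4⟩, rfl⟩
    · change _ ∈ R.set (f v)
      rw [hset, h7]; exact ⟨x, ⟨h5, h6⟩, rfl⟩
  refine ⟨⟨a, b, g, fun w => ?_, hne⟩, hf, hpos, hlt, hgne, hset⟩
  simp only [hb]; linarith [R.len_pos (f w)]

lemma abs_eq_radius {R : ArcRep V} {v : V} {ρ φ : ℝ} (h : ρ • e φ ∈ R.set v) :
    |ρ| = R.radius v := by
  rw [ArcRep.set, mem_arc] at h
  obtain ⟨t, _, _, h3⟩ := h
  have h4 := congrArg norm h3
  rw [norm_smul, norm_smul, norm_e, norm_e, mul_one, mul_one, Real.norm_eq_abs,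
    Real.norm_eq_abs, abs_of_pos (R.radius_pos v)] at h4
  exact h4

/-- A line through a point of an arc that sees no other arc meets no other arc. -/
lemma isolated_line [Finite V] {R : ArcRep V} {i : ℕ} {x : V} (hx : ∀ v ≠ x, ¬ R.Sees i x v)
    {φ ρ₀ : ℝ} (h0 : ρ₀ • e φ ∈ R.set x) {v : V} (hv : v ≠ x) {ρ : ℝ} (h1 : ρ • e φ ∈ R.set v) :
    False := by
  classical
  set S : Set (V × Bool) := {p | p.1 ≠ x ∧ ((if p.2 then R.radius p.1 else - R.radius p.1) • e φ) ∈
    R.set p.1} with hS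
  have mem : ∀ (w : V) (c : ℝ), w ≠ x → c • e φ ∈ R.set w → ∃ b : Bool, (w, b) ∈ S ∧
      (if b then R.radius w else - R.radius w) = c := by
    intro w c hw hc
    have h2 := abs_eq_radius hc
    rcases le_total 0 c with h3 | h3
    · rw [abs_of_nonneg h3] at h2
      refine ⟨true, ⟨hw, ?_⟩, by simp [h2]⟩
      simp only [if_true, ← h2]
      exact hc
    · rw [abs_of_nonpos h3] at h2
      refine ⟨false, ⟨hw, ?_⟩, by simp [← h2]⟩
      simp only [Bool.false_eq_true, if_false, ← h2, neg_neg]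
      exact hc
  obtain ⟨b, hb, -⟩ := mem v ρ hv h1
  obtain ⟨⟨w, c⟩, hw, hmin⟩ := Set.exists_min_image S
    (fun p => |(if p.2 then R.radius p.1 else - R.radius p.1) - ρ₀|) (Set.toFinite _) ⟨_, hb⟩
  set g : ℝ := if c then R.radius w else - R.radius w with hg
  apply hx w hw.1
  refine ⟨ρ₀ • e φ, h0, g • e φ, hw.2, collinear_smul _ _ _, ?_⟩
  have hemp : {w' | w' ≠ x ∧ w' ≠ w ∧ (R.set w' ∩ segment ℝ (ρ₀ • e φ) (g • e φ)).Nonempty} = ∅ := by
    rw [Set.eq_empty_iff_forall_notMem]
    rintro w' ⟨h2, h3, z, hz1, hz2⟩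
    rw [mem_seg] at hz2
    obtain ⟨t, ht1, ht2, rfl⟩ := hz2
    obtain ⟨b', hb', hb''⟩ := mem w' t h2 hz1
    have h4 := hmin _ hb'
    simp only [hb''] at h4
    have h5 : t = g := by
      rcases le_total ρ₀ g with h6 | h6
      · rw [min_eq_left h6] at ht1
        rw [max_eq_right h6] at ht2
        rw [abs_of_nonneg (by linarith), abs_of_nonneg (by linarith)] at h4
        linarith
      · rw [min_eq_right h6] at ht1
        rw [max_eq_left h6] at ht2
        rw [abs_of_nonpos (by linarith), abs_of_nonpos (by linarith)] at h4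
        linarith
    rw [h5] at hz1
    exact Set.disjoint_left.1 (R.disj w' w h3) hz1 hw.2
  rw [hemp]
  simp

lemma ArcRep.Sees.symm {R : ArcRep V} {k : ℕ} {u v : V} (h : R.Sees k u v) : R.Sees k v u := by
  obtain ⟨p, hp, q, hq, hc, hk⟩ := h
  refine ⟨q, hq, p, hp, ?_, ?_⟩
  · rwa [Set.pair_comm]
  · rw [segment_symm]
    have : {w | w ≠ v ∧ w ≠ u ∧ (R.set w ∩ segment ℝ p q).Nonempty} =
        {w | w ≠ u ∧ w ≠ v ∧ (R.set w ∩ segment ℝ p q).Nonempty} := by
      ext w
      exact ⟨fun h => ⟨h.2.1, h.1, h.2.2⟩, fun h => ⟨h.2.1, h.1, h.2.2⟩⟩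
    rw [this]
    exact hk

/-- the visibility graph of a representation -/
def ArcRep.graph (R : ArcRep V) (k : ℕ) : SimpleGraph V where
  Adj u v := u ≠ v ∧ R.Sees k u v
  symm := ⟨by intro u v h; exact ⟨h.1.symm, h.2.symm⟩⟩
  loopless := ⟨by intro u h; exact h.1 rfl⟩

/-! ### From bars to arcs -/

/-- the bars in the sector of the angles in `(1 / 5, 9 / 5)`, and one more arc elsewhere -/
noncomputable def Bars.squeeze (B : Bars W) : Bars (Option W) where
  a := fun o => o.elim (1 / 20) fun w => 1 + Real.arctan (B.a w) / 2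
  b := fun o => o.elim (1 / 10) fun w => 1 + Real.arctan (B.b w) / 2
  h := fun o => o.elim 1 fun w => Real.exp (B.h w)
  lt := by
    rintro (_ | w)
    · simp; norm_num
    · have := Real.arctan_lt_arctan_iff.2 (B.lt w)
      simp only [Option.elim_some]
      linarith
  ne := by
    have hpi := Real.pi_lt_d2
    have key : ∀ t : ℝ, (1 : ℝ) / 10 < 1 + Real.arctan t / 2 := by
      intro t
      have := Real.neg_pi_div_two_lt_arctan t
      linarith
    rintro (_ | u) (_ | v) x huv h1 h2 h3 h4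
    · exact absurd rfl huv
    · simp only [Option.elim_some, Option.elim_none] at h1 h2 h3 h4
      linarith [key (B.a v)]
    · simp only [Option.elim_some, Option.elim_none] at h1 h2 h3 h4
      linarith [key (B.a u)]
    · simp only [Option.elim_some] at h1 h2 h3 h4 ⊢
      rw [Ne, Real.exp_eq_exp]
      have h5 : Real.arctan (Real.tan (2 * (x - 1))) = 2 * (x - 1) := by
        apply Real.arctan_tan
        · have := Real.neg_pi_div_two_lt_arctan (B.a u); linarith
        · have := Real.arctan_lt_pi_div_two (B.b u); linarith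
      refine B.ne u v (Real.tan (2 * (x - 1))) (fun h => huv (by rw [h])) ?_ ?_ ?_ ?_
      · rw [← Real.arctan_le_arctan_iff, h5]; linarith
      · rw [← Real.arctan_le_arctan_iff, h5]; linarith
      · rw [← Real.arctan_le_arctan_iff, h5]; linarith
      · rw [← Real.arctan_le_arctan_iff, h5]; linarith

lemma lt_squeeze (t : ℝ) : (1 : ℝ) / 10 < 1 + Real.arctan t / 2 := by
  have hpi := Real.pi_lt_d2
  have := Real.neg_pi_div_two_lt_arctan t
  linarith

lemma squeeze_lt (t : ℝ) : 1 + Real.arctan t / 2 < Real.pi := by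
  have hpi := Real.pi_gt_three
  have := Real.arctan_lt_pi_div_two t
  linarith

/-- the arcs of `B.squeeze` -/
noncomputable def Bars.toArc (B : Bars W) : ArcRep (Option W) where
  radius := B.squeeze.h
  start := B.squeeze.a
  len := fun o => B.squeeze.b o - B.squeeze.a o
  radius_pos := by
    rintro (_ | w)
    · simp [Bars.squeeze]
    · simp [Bars.squeeze, Real.exp_pos]
  len_pos := fun o => by linarith [B.squeeze.lt o]
  len_le := by
    have hpi := Real.pi_gt_three
    rintro (_ | w)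
    · simp only [Bars.squeeze, Option.elim_none]; linarith
    · simp only [Bars.squeeze, Option.elim_some]
      linarith [squeeze_lt (B.b w), lt_squeeze (B.a w)]
  disj := by
    intro u v huv
    rw [Set.disjoint_left]
    intro z hz1 hz2
    rw [mem_arc] at hz1 hz2
    obtain ⟨t, h1, h2, h3⟩ := hz1
    obtain ⟨t', h1', h2', h3'⟩ := hz2
    rw [h3] at h3'
    have pos : ∀ o, 0 < B.squeeze.a o := by
      rintro (_ | w)
      · simp [Bars.squeeze]
      · simp only [Bars.squeeze, Option.elim_some]; linarith [lt_squeeze (B.a w)]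
    have lt : ∀ o, B.squeeze.b o < Real.pi := by
      have hpi := Real.pi_gt_three
      rintro (_ | w)
      · simp only [Bars.squeeze, Option.elim_none]; linarith
      · simp only [Bars.squeeze, Option.elim_some]; exact squeeze_lt _
    have hne : B.squeeze.h u ≠ 0 := by
      rcases u with _ | w
      · simp [Bars.squeeze]
      · simp [Bars.squeeze, Real.exp_ne_zero]
    have h4 := dir_inj (θ := 0) (a := t') (b := t) (by linarith [pos v]) (by linarith [lt v])
      (by linarith [pos u]) (by linarith [lt u]) hne (by rw [zero_add, zero_add]; exact h3')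
    obtain ⟨rfl, h4⟩ := h4
    exact B.squeeze.ne u v t huv h1 (by linarith) h1' (by linarith) h4

lemma Bars.toArc_len (B : Bars W) (o : Option W) : B.toArc.len o < 2 * Real.pi := by
  have hpi := Real.pi_gt_three
  rcases o with _ | w
  · simp only [Bars.toArc, Bars.squeeze, Option.elim_none]; linarith
  · simp only [Bars.toArc, Bars.squeeze, Option.elim_some]
    linarith [squeeze_lt (B.b w), lt_squeeze (B.a w)]

lemma Bars.fit (B : Bars W) : Fit B.toArc id 0 B.squeeze where
  inj := Function.injective_id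
  pos := by
    rintro (_ | w)
    · simp [Bars.squeeze]
    · simp only [Bars.squeeze, Option.elim_some]; linarith [lt_squeeze (B.a w)]
  lt := by
    have hpi := Real.pi_gt_three
    rintro (_ | w)
    · simp only [Bars.squeeze, Option.elim_none]; linarith
    · simp only [Bars.squeeze, Option.elim_some]; exact squeeze_lt _
  hne := by
    rintro (_ | w)
    · simp [Bars.squeeze]
    · simp [Bars.squeeze, Real.exp_ne_zero]
  set_eq := by
    intro o
    ext z
    rw [ArcRep.set, mem_arc]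
    constructor
    · rintro ⟨t, h1, h2, h3⟩
      refine ⟨t, ⟨h1, ?_⟩, by rw [zero_add]; exact h3⟩
      simp only [Bars.toArc, id] at h1 h2 ⊢
      linarith
    · rintro ⟨t, ⟨h1, h2⟩, h3⟩
      rw [zero_add] at h3
      refine ⟨t, h1, ?_, h3⟩
      simp only [Bars.toArc, id] at h1 h2 ⊢
      linarith

lemma squeeze_at_none (B : Bars W) (w : W) (x : ℝ) (h1 : B.squeeze.At none x)
    (h2 : B.squeeze.At (some w) x) : False := by
  simp only [Bars.At, Bars.squeeze, Option.elim_some, Option.elim_none] at h1 h2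
  linarith [lt_squeeze (B.a w)]

lemma squeeze_at (B : Bars W) (w : W) (t : ℝ) :
    B.squeeze.At (some w) (1 + Real.arctan t / 2) ↔ B.At w t := by
  simp only [Bars.At, Bars.squeeze, Option.elim_some]
  rw [← Real.arctan_le_arctan_iff (x := B.a w), ← Real.arctan_le_arctan_iff (y := B.b w)]
  constructor
  · rintro ⟨h1, h2⟩; constructor <;> linarith
  · rintro ⟨h1, h2⟩; constructor <;> linarith

lemma squeeze_at' (B : Bars W) (w : W) (x : ℝ) (h : B.squeeze.At (some w) x) :
    ∃ t, x = 1 + Real.arctan t / 2 := by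
  simp only [Bars.At, Bars.squeeze, Option.elim_some] at h
  refine ⟨Real.tan (2 * (x - 1)), ?_⟩
  rw [Real.arctan_tan]
  · ring
  · have := Real.neg_pi_div_two_lt_arctan (B.a w); linarith
  · have := Real.arctan_lt_pi_div_two (B.b w); linarith

lemma squeeze_blk (B : Bars W) (u v : W) (t : ℝ) (hu : B.At u t) :
    B.squeeze.blk (some u) (some v) (1 + Real.arctan t / 2) = some '' B.blk u v t := by
  have hh : ∀ w, B.squeeze.h (some w) = Real.exp (B.h w) := fun w => rfl
  ext o
  rcases o with _ | w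
  · constructor
    · rintro ⟨_, _, h, _⟩
      exact (squeeze_at_none B u _ h ((squeeze_at B u t).2 hu)).elim
    · rintro ⟨w, _, h⟩
      cases h
  · simp only [Bars.blk, hh]
    rw [← Real.exp_monotone.map_min, ← Real.exp_monotone.map_max]
    constructor
    · rintro ⟨h1, h2, h3, h4, h5⟩
      refine ⟨w, ⟨fun h => h1 (by rw [h]), fun h => h2 (by rw [h]), (squeeze_at B w t).1 h3,
        Real.exp_le_exp.1 h4, Real.exp_le_exp.1 h5⟩, rfl⟩
    · rintro ⟨w', ⟨h1, h2, h3, h4, h5⟩, h6⟩
      obtain rfl : w' = w := Option.some_injective _ h6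
      exact ⟨fun h => h1 (Option.some_injective _ h), fun h => h2 (Option.some_injective _ h),
        (squeeze_at B w' t).2 h3, Real.exp_le_exp.2 h4, Real.exp_le_exp.2 h5⟩

lemma toArc_sees [Finite W] (B : Bars W) (k : ℕ) (u v : W) :
    B.toArc.Sees k (some u) (some v) ↔ B.Adj k u v := by
  constructor
  · intro h
    obtain ⟨x, h1, h2, h3⟩ := B.fit.sees_adj (u := some u) (v := some v) h
    obtain ⟨t, rfl⟩ := squeeze_at' B u x h1
    rw [squeeze_at] at h1 h2
    rw [squeeze_blk B u v t h1, Set.ncard_image_of_injective _ (Option.some_injective _)] at h3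
    exact ⟨t, h1, h2, h3⟩
  · rintro ⟨t, h1, h2, h3⟩
    refine B.fit.adj_sees (u := some u) (v := some v) ((squeeze_at B u t).2 h1)
      ((squeeze_at B v t).2 h2) ?_ ?_
    · intro w hw; exact (hw ⟨w, rfl⟩).elim
    · rw [squeeze_blk B u v t h1, Set.ncard_image_of_injective _ (Option.some_injective _)]
      exact h3

lemma toArc_none [Finite W] (B : Bars W) (k : ℕ) (v : W) : ¬ B.toArc.Sees k none (some v) := by
  intro h
  obtain ⟨x, h1, h2, h3⟩ := B.fit.sees_adj (u := none) (v := some v) h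
  exact squeeze_at_none B v x h1 h2

/-- The reduction to bars. -/
lemma core [Finite W] (B : Bars W) (i j : ℕ) (h : IsArcVisCircles i (B.toArc.graph j)) :
    ∃ C : Bars W, (∀ u v, u ≠ v → B.Adj j u v → C.Adj i u v) ∧
      ∀ u v x, u ≠ v → C.At u x → C.At v x → (C.blk u v x).ncard ≤ i → B.Adj j u v := by
  obtain ⟨R, hR⟩ := h
  have hiso : ∀ v ≠ none, ¬ R.Sees i none v := by
    rintro (_ | v) hv hs
    · exact hv rfl
    · have := (hR none (some v)).2 ⟨Ne.symm hv, hs⟩
      exact toArc_none B j v this.2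
  set θ := R.start none with hθ
  have h0 : R.radius none • e θ ∈ R.set none := by
    rw [ArcRep.set, mem_arc]
    exact ⟨θ, le_rfl, by linarith [R.len_pos none], rfl⟩
  obtain ⟨C, F⟩ := exists_fit R some (Option.some_injective W) θ
    (fun w ρ hρ => isolated_line hiso h0 (by simp) hρ)
  refine ⟨C, ?_, ?_⟩
  · intro u v huv hB
    apply F.sees_adj
    have huv' : (some u : Option W) ≠ some v := fun h => huv (Option.some_injective _ h)
    exact ((hR _ _).1 ⟨huv', (toArc_sees B j u v).2 hB⟩).2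
  · intro u v x huv h1 h2 h3
    have huv' : (some u : Option W) ≠ some v := fun h => huv (Option.some_injective _ h)
    rw [← toArc_sees]
    refine ((hR _ _).2 ⟨huv', F.adj_sees h1 h2 ?_ h3⟩).2
    rintro (_ | w) hw ρ hρ
    · have h4 : C.h u • e (θ + x) ∈ R.set (some u) := by
        rw [F.set_eq]; exact ⟨x, h1, rfl⟩
      exact isolated_line hiso hρ (by simp) h4
    · exact hw ⟨w, rfl⟩

/-! ### Cliques of bars -/

lemma rank_lemma {ι : Type} (T : Finset ι) (h : ι → ℝ) (k : ℕ) (P : ι → ι → Prop)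
    (hP : ∀ v ∈ T, ∀ w ∈ T, h w < h v → P v w) (hinj : ∀ v ∈ T, ∀ w ∈ T, h v = h w → v = w)
    (hk : ∀ v ∈ T, {w | w ∈ T ∧ P v w}.ncard ≤ k) : T.card ≤ k + 1 := by
  classical
  rcases T.eq_empty_or_nonempty with rfl | hT
  · simp
  · obtain ⟨v, hv, hmax⟩ := T.exists_max_image h hT
    have h1 : ((T.erase v : Finset ι) : Set ι) ⊆ {w | w ∈ T ∧ P v w} := by
      intro w hw
      rw [Finset.mem_coe, Finset.mem_erase] at hw
      refine ⟨hw.2, hP v hv w hw.2 ?_⟩
      rcases (hmax w hw.2).lt_or_eq with h2 | h2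
      · exact h2
      · exact absurd (hinj w hw.2 v hv h2) hw.1
    have h2 := Set.ncard_le_ncard h1 (T.finite_toSet.subset fun w hw => hw.1)
    rw [Set.ncard_coe_finset, Finset.card_erase_of_mem hv] at h2
    have := hk v hv
    omega

/-- a complete bar `k`-visibility graph on `W` -/
def BarComplete (k : ℕ) (W : Type) : Prop := ∃ B : Bars W, ∀ u v, u ≠ v → B.Adj k u v

lemma BarComplete.of_injective {W' : Type} [Finite W'] {k : ℕ} {f : W → W'}
    (hf : Function.Injective f) (h : BarComplete k W') : BarComplete k W := by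
  obtain ⟨B, hB⟩ := h
  refine ⟨⟨fun w => B.a (f w), fun w => B.b (f w), fun w => B.h (f w), fun w => B.lt _,
    fun u v x huv => B.ne _ _ _ (fun h => huv (hf h))⟩, ?_⟩
  intro u v huv
  obtain ⟨x, h1, h2, h3⟩ := hB (f u) (f v) (fun h => huv (hf h))
  refine ⟨x, h1, h2, le_trans ?_ h3⟩
  refine Set.ncard_le_ncard_of_injOn f ?_ hf.injOn (Set.toFinite _)
  rintro w ⟨h4, h5, h6, h7, h8⟩
  exact ⟨fun h => h4 (hf h), fun h => h5 (hf h), h6, h7, h8⟩

lemma exists_bound [Finite W] (g : W → ℝ) : ∃ L : ℝ, 0 < L ∧ ∀ w, -L < g w ∧ g w < L := by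
  obtain ⟨M, hM⟩ := (Set.finite_range fun w => |g w|).bddAbove
  refine ⟨|M| + 1, by positivity, fun w => ?_⟩
  have h1 : |g w| ≤ M := hM ⟨w, rfl⟩
  have h2 := le_abs_self M
  rw [← abs_lt]
  linarith

/-- Adding a long bar at the bottom. -/
lemma BarComplete.add [Finite W] {k : ℕ} (h : BarComplete k W) :
    BarComplete (k + 1) (Option W) := by
  obtain ⟨B, hB⟩ := h
  obtain ⟨L1, h1, hL1⟩ := exists_bound B.a
  obtain ⟨L2, h2, hL2⟩ := exists_bound B.b
  obtain ⟨L3, h3, hL3⟩ := exists_bound B.h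
  let C : Bars (Option W) :=
    { a := fun o => o.elim (-L1) B.a
      b := fun o => o.elim L2 B.b
      h := fun o => o.elim (-L3) B.h
      lt := by
        rintro (_ | w)
        · simp only [Option.elim_none]; linarith
        · exact B.lt w
      ne := by
        rintro (_ | u) (_ | v) x huv h4 h5 h6 h7
        · exact absurd rfl huv
        · simp only [Option.elim_some, Option.elim_none]; linarith [(hL3 v).1]
        · simp only [Option.elim_some, Option.elim_none]
          exact (by linarith [(hL3 u).1] : -L3 < B.h u).ne'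
        · exact B.ne u v x (fun h => huv (by rw [h])) h4 h5 h6 h7 }
  have low : ∀ v : W, ∃ x, B.At v x ∧ (C.blk none (some v) x).ncard ≤ k + 1 := by
    intro v
    have : Nonempty W := ⟨v⟩
    obtain ⟨w0, hw0⟩ := Finite.exists_min B.h
    by_cases hv : v = w0
    · subst hv
      refine ⟨B.a v, ⟨le_rfl, (B.lt v).le⟩, ?_⟩
      have : C.blk none (some v) (B.a v) = ∅ := by
        rw [Set.eq_empty_iff_forall_notMem]
        rintro (_ | w) ⟨h4, h5, h6, h7, h8⟩
        · exact h4 rfl
        · have h9 : B.h w ≤ B.h v := by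
            refine h8.trans ?_
            change max (-L3) (B.h v) ≤ B.h v
            exact max_le (hL3 v).1.le le_rfl
          exact B.ne w v (B.a v) (fun h => h5 (by rw [h])) h6.1 h6.2 le_rfl (B.lt v).le
            (le_antisymm h9 (hw0 w))
      rw [this]; simp
    · obtain ⟨x, h4, h5, h6⟩ := hB v w0 hv
      refine ⟨x, h4, ?_⟩
      have h7 : C.blk none (some v) x ⊆ insert (some w0) (some '' B.blk v w0 x) := by
        rintro (_ | w) ⟨h8, h9, h10, h11, h12⟩
        · exact absurd rfl h8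
        · by_cases hw : w = w0
          · left; rw [hw]
          · right
            refine ⟨w, ⟨fun h => h9 (by rw [h]), hw, h10, ?_, ?_⟩, rfl⟩
            · exact (min_le_right _ _).trans (hw0 w)
            · refine le_trans ?_ (le_max_left _ _)
              refine h12.trans ?_
              change max (-L3) (B.h v) ≤ B.h v
              exact max_le (hL3 v).1.le le_rfl
      refine (Set.ncard_le_ncard h7 (Set.toFinite _)).trans ?_
      refine (Set.ncard_insert_le _ _).trans ?_
      rw [Set.ncard_image_of_injective _ (Option.some_injective _)]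
      omega
  have atn : ∀ v x, B.At v x → C.At none x := by
    intro v x hx
    exact ⟨(hL1 v).1.le.trans hx.1, hx.2.trans (hL2 v).2.le⟩
  refine ⟨C, ?_⟩
  rintro (_ | u) (_ | v) huv
  · exact absurd rfl huv
  · obtain ⟨x, h4, h5⟩ := low v
    exact ⟨x, atn v x h4, h4, h5⟩
  · obtain ⟨x, h4, h5⟩ := low u
    refine ⟨x, h4, atn u x h4, ?_⟩
    have : C.blk (some u) none x = C.blk none (some u) x := by
      ext w
      simp only [Bars.blk, min_comm (C.h (some u)), max_comm (C.h (some u))]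
      exact ⟨fun h => ⟨h.2.1, h.1, h.2.2⟩, fun h => ⟨h.2.1, h.1, h.2.2⟩⟩
    rw [this]
    exact h5
  · obtain ⟨x, h4, h5, h6⟩ := hB u v (fun h => huv (by rw [h]))
    refine ⟨x, h4, h5, ?_⟩
    have h7 : C.blk (some u) (some v) x ⊆ insert none (some '' B.blk u v x) := by
      rintro (_ | w) ⟨h8, h9, h10, h11, h12⟩
      · left; rfl
      · right
        exact ⟨w, ⟨fun h => h8 (by rw [h]), fun h => h9 (by rw [h]), h10, h11, h12⟩, rfl⟩
    refine (Set.ncard_le_ncard h7 (Set.toFinite _)).trans ?_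
    refine (Set.ncard_insert_le _ _).trans ?_
    rw [Set.ncard_image_of_injective _ (Option.some_injective _)]
    omega

/-- All bars of a complete bar visibility graph cross one vertical line. -/
lemma helly [Finite W] [Nonempty W] {B : Bars W} {k : ℕ} (hB : ∀ u v, u ≠ v → B.Adj k u v) :
    ∃ x, ∀ w, B.At w x := by
  obtain ⟨w0, hw0⟩ := Finite.exists_min B.b
  refine ⟨B.b w0, fun w => ?_⟩
  by_cases h : w = w0
  · subst h
    exact ⟨(B.lt w).le, le_rfl⟩
  · obtain ⟨x, h1, h2, _⟩ := hB w w0 h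
    exact ⟨h1.1.trans h2.2, hw0 w⟩

/-- one-sided neighbourhoods -/
def nb (T : W → Set W) (h : W → ℝ) (k : ℕ) (u : W) : Set W :=
  {v | v ≠ u ∧ v ∈ T u ∧ {w | w ∈ T u ∧ min (h u) (h v) < h w ∧ h w < max (h u) (h v)}.ncard ≤ k}

lemma nb_card [Finite W] (T : W → Set W) (h : W → ℝ) (hinj : Function.Injective h) (k : ℕ)
    (u : W) : (nb T h k u).ncard ≤ 2 * (k + 1) := by
  classical
  have hsplit : nb T h k u = {v | v ∈ nb T h k u ∧ h u < h v} ∪ {v | v ∈ nb T h k u ∧ h v < h u} := by
    ext v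
    constructor
    · intro hv
      rcases lt_trichotomy (h u) (h v) with h1 | h1 | h1
      · exact Or.inl ⟨hv, h1⟩
      · exact absurd (hinj h1).symm hv.1
      · exact Or.inr ⟨hv, h1⟩
    · rintro (hv | hv) <;> exact hv.1
  rw [hsplit]
  refine (Set.ncard_union_le _ _).trans ?_
  have h1 : ({v | v ∈ nb T h k u ∧ h u < h v}).ncard ≤ k + 1 := by
    rw [Set.ncard_eq_toFinset_card _ (Set.toFinite _)]
    refine rank_lemma _ h k (fun v w => w ∈ T u ∧ min (h u) (h v) < h w ∧ h w < max (h u) (h v))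
      ?_ (fun _ _ _ _ h => hinj h) ?_
    · intro v hv w hw hlt
      rw [Set.Finite.mem_toFinset] at hv hw
      exact ⟨hw.1.2.1, (min_le_left _ _).trans_lt hw.2, hlt.trans_le (le_max_right _ _)⟩
    · intro v hv
      rw [Set.Finite.mem_toFinset] at hv
      refine (Set.ncard_le_ncard ?_ (Set.toFinite _)).trans hv.1.2.2
      intro w hw
      exact hw.2
  have h2 : ({v | v ∈ nb T h k u ∧ h v < h u}).ncard ≤ k + 1 := by
    rw [Set.ncard_eq_toFinset_card _ (Set.toFinite _)]
    refine rank_lemma _ (fun v => - h v) k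
      (fun v w => w ∈ T u ∧ min (h u) (h v) < h w ∧ h w < max (h u) (h v))
      ?_ (fun _ _ _ _ h => hinj (neg_injective h)) ?_
    · intro v hv w hw hlt
      rw [Set.Finite.mem_toFinset] at hv hw
      exact ⟨hw.1.2.1, (min_le_right _ _).trans_lt (neg_lt_neg_iff.1 hlt),
        hw.2.trans_le (le_max_left _ _)⟩
    · intro v hv
      rw [Set.Finite.mem_toFinset] at hv
      refine (Set.ncard_le_ncard ?_ (Set.toFinite _)).trans hv.1.2.2
      intro w hw
      exact hw.2
  omega

lemma BarComplete.card_le [Fintype W] {k : ℕ} (h : BarComplete k W) :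
    Fintype.card W ≤ 8 * k + 9 := by
  classical
  obtain ⟨B, hB⟩ := h
  rcases isEmpty_or_nonempty W with hW | hW
  · simp
  obtain ⟨x0, hx0⟩ := helly hB
  have hinj : Function.Injective B.h := by
    intro u v huv
    by_contra hne
    exact B.ne u v x0 hne (hx0 u).1 (hx0 u).2 (hx0 v).1 (hx0 v).2 huv
  set TR : W → Set W := fun u => {w | B.b u ≤ B.b w} with hTR
  set TL : W → Set W := fun u => {w | B.a w ≤ B.a u} with hTL
  set Q : W → W → Prop := fun u v => v ∈ nb TR B.h k u ∨ v ∈ nb TL B.h k u with hQ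
  have key : ∀ u v, u ≠ v → Q u v ∨ Q v u := by
    intro u v huv
    obtain ⟨x, h1, h2, h3⟩ := hB u v huv
    rcases le_total x0 x with hx | hx
    · rcases le_total (B.b u) (B.b v) with h4 | h4
      · left; left
        refine ⟨huv.symm, h4, le_trans (Set.ncard_le_ncard ?_ (Set.toFinite _)) h3⟩
        rintro w ⟨h5, h6, h7⟩
        refine ⟨?_, ?_, ⟨(hx0 w).1.trans hx, h1.2.trans h5⟩, h6.le, h7.le⟩
        · rintro rfl
          rcases min_lt_iff.1 h6 with h8 | h8
          · exact lt_irrefl _ h8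
          · rcases lt_max_iff.1 h7 with h9 | h9
            · exact lt_irrefl _ h9
            · exact lt_asymm h8 h9
        · rintro rfl
          rcases min_lt_iff.1 h6 with h8 | h8
          · rcases lt_max_iff.1 h7 with h9 | h9
            · exact lt_asymm h8 h9
            · exact lt_irrefl _ h9
          · exact lt_irrefl _ h8
      · right; left
        refine ⟨huv, h4, le_trans (Set.ncard_le_ncard ?_ (Set.toFinite _)) h3⟩
        rintro w ⟨h5, h6, h7⟩
        rw [min_comm] at h6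
        rw [max_comm] at h7
        refine ⟨?_, ?_, ⟨(hx0 w).1.trans hx, h2.2.trans h5⟩, h6.le, h7.le⟩
        · rintro rfl
          rcases min_lt_iff.1 h6 with h8 | h8
          · exact lt_irrefl _ h8
          · rcases lt_max_iff.1 h7 with h9 | h9
            · exact lt_irrefl _ h9
            · exact lt_asymm h8 h9
        · rintro rfl
          rcases min_lt_iff.1 h6 with h8 | h8
          · rcases lt_max_iff.1 h7 with h9 | h9
            · exact lt_asymm h8 h9
            · exact lt_irrefl _ h9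
          · exact lt_irrefl _ h8
    · rcases le_total (B.a v) (B.a u) with h4 | h4
      · left; right
        refine ⟨huv.symm, h4, le_trans (Set.ncard_le_ncard ?_ (Set.toFinite _)) h3⟩
        rintro w ⟨h5, h6, h7⟩
        refine ⟨?_, ?_, ⟨le_trans h5 h1.1, hx.trans (hx0 w).2⟩, h6.le, h7.le⟩
        · rintro rfl
          rcases min_lt_iff.1 h6 with h8 | h8
          · exact lt_irrefl _ h8
          · rcases lt_max_iff.1 h7 with h9 | h9
            · exact lt_irrefl _ h9
            · exact lt_asymm h8 h9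
        · rintro rfl
          rcases min_lt_iff.1 h6 with h8 | h8
          · rcases lt_max_iff.1 h7 with h9 | h9
            · exact lt_asymm h8 h9
            · exact lt_irrefl _ h9
          · exact lt_irrefl _ h8
      · right; right
        refine ⟨huv, h4, le_trans (Set.ncard_le_ncard ?_ (Set.toFinite _)) h3⟩
        rintro w ⟨h5, h6, h7⟩
        rw [min_comm] at h6
        rw [max_comm] at h7
        refine ⟨?_, ?_, ⟨le_trans h5 h2.1, hx.trans (hx0 w).2⟩, h6.le, h7.le⟩
        · rintro rfl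
          rcases min_lt_iff.1 h6 with h8 | h8
          · exact lt_irrefl _ h8
          · rcases lt_max_iff.1 h7 with h9 | h9
            · exact lt_irrefl _ h9
            · exact lt_asymm h8 h9
        · rintro rfl
          rcases min_lt_iff.1 h6 with h8 | h8
          · rcases lt_max_iff.1 h7 with h9 | h9
            · exact lt_asymm h8 h9
            · exact lt_irrefl _ h9
          · exact lt_irrefl _ h8
  -- counting
  set P : Finset (W × W) := Finset.univ.filter fun p => Q p.1 p.2 with hP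
  have hPcard : P.card ≤ Fintype.card W * (4 * (k + 1)) := by
    have h1 : P.card = ∑ u : W, (Finset.univ.filter fun v => Q u v).card := by
      rw [hP, Finset.card_filter, Fintype.sum_prod_type]
      simp only [Finset.card_filter]
    rw [h1]
    refine (Finset.sum_le_card_nsmul _ _ (4 * (k + 1)) ?_).trans (by simp)
    intro u _
    have h2 : ((Finset.univ.filter fun v => Q u v : Finset W) : Set W) ⊆
        nb TR B.h k u ∪ nb TL B.h k u := by
      intro v hv
      simpa [hQ] using hv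
    have h3 := Set.ncard_le_ncard h2 (Set.toFinite _)
    rw [Set.ncard_coe_finset] at h3
    have h4 := Set.ncard_union_le (nb TR B.h k u) (nb TL B.h k u)
    have h5 := nb_card TR B.h hinj k u
    have h6 := nb_card TL B.h hinj k u
    omega
  have hoff : (Finset.univ : Finset W).offDiag ⊆ P ∪ P.image Prod.swap := by
    intro p hp
    rw [Finset.mem_offDiag] at hp
    rw [Finset.mem_union, Finset.mem_image]
    rcases key p.1 p.2 hp.2.2 with h1 | h1
    · left
      rw [hP, Finset.mem_filter]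
      exact ⟨Finset.mem_univ _, h1⟩
    · right
      refine ⟨p.swap, ?_, by simp⟩
      rw [hP, Finset.mem_filter]
      exact ⟨Finset.mem_univ _, h1⟩
  have h1 := Finset.card_le_card hoff
  have h2 := Finset.card_union_le P (P.image Prod.swap)
  have h3 : (P.image Prod.swap).card ≤ P.card := Finset.card_image_le
  rw [Finset.offDiag_card, Finset.card_univ] at h1
  set N := Fintype.card W with hN
  have hNpos : 0 < N := Fintype.card_pos
  have h4 : N * N ≤ N * (8 * k + 9) := by
    have h5 : N * N ≤ 2 * (N * (4 * (k + 1))) + N := by omega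
    calc N * N ≤ 2 * (N * (4 * (k + 1))) + N := h5
      _ = N * (8 * k + 9) := by ring
  exact Nat.le_of_mul_le_mul_left h4 hNpos

lemma exists_clique {i j : ℕ} (hij : i < j) :
    ∃ M, BarComplete j (Fin M) ∧ ¬ BarComplete i (Fin M) := by
  classical
  have h1 : ∃ M, ¬ BarComplete i (Fin M) := by
    refine ⟨8 * i + 10, fun h => ?_⟩
    have := h.card_le
    rw [Fintype.card_fin] at this
    omega
  have h2 := Nat.find_spec h1
  have h3 : ∀ M, M < Nat.find h1 → BarComplete i (Fin M) := fun M hM =>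
    not_not.1 (Nat.find_min h1 hM)
  have h4 : BarComplete i (Fin 0) :=
    ⟨⟨Fin.elim0, Fin.elim0, Fin.elim0, fun u => u.elim0, fun u => u.elim0⟩, fun u => u.elim0⟩
  obtain ⟨m, hm⟩ : ∃ m, Nat.find h1 = m + 1 := by
    cases h5 : Nat.find h1 with
    | zero => rw [h5] at h2; exact absurd h4 h2
    | succ m => exact ⟨m, rfl⟩
  have h5 := h3 m (by omega)
  have h6 : ∀ d, BarComplete (i + d) (Fin (m + d)) := by
    intro d
    induction d with
    | zero => exact h5
    | succ d ih =>
      exact ih.add.of_injective (f := finSuccEquiv (m + d)) (finSuccEquiv (m + d)).injective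
  refine ⟨Nat.find h1, ?_, h2⟩
  have h7 := h6 (j - i)
  rw [show i + (j - i) = j by omega] at h7
  exact h7.of_injective (f := Fin.castLE (by omega)) (Fin.castLE_injective _)

/-! ### The join of `C₄` and `K_j` -/

/-- `m` lowest elements -/
lemma lowest {ι : Type} (T : Finset ι) (h : ι → ℝ)
    (hinj : ∀ v ∈ T, ∀ w ∈ T, h v = h w → v = w) (m : ℕ) (hm : m ≤ T.card) :
    ∃ S ⊆ T, S.card = m ∧ ∀ s ∈ S, ∀ t ∈ T, t ∉ S → h s < h t := by
  classical
  induction m with
  | zero => exact ⟨∅, by simp, by simp, by simp⟩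
  | succ m ih =>
    obtain ⟨S, h1, h2, h3⟩ := ih (by omega)
    have h4 : (T \ S).Nonempty := by
      rw [← Finset.card_pos, Finset.card_sdiff_of_subset h1]
      omega
    obtain ⟨v, hv, hmin⟩ := (T \ S).exists_min_image h h4
    rw [Finset.mem_sdiff] at hv
    refine ⟨insert v S, ?_, ?_, ?_⟩
    · intro w hw
      rcases Finset.mem_insert.1 hw with rfl | hw
      · exact hv.1
      · exact h1 hw
    · rw [Finset.card_insert_of_notMem hv.2, h2]
    · intro s hs t ht hts
      rw [Finset.mem_insert, not_or] at hts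
      rcases Finset.mem_insert.1 hs with rfl | hs
      · rcases (hmin t (Finset.mem_sdiff.2 ⟨ht, hts.2⟩)).lt_or_eq with h5 | h5
        · exact h5
        · exact absurd (hinj _ hv.1 t ht h5).symm hts.1
      · exact h3 s hs t ht hts.2

/-- If no `i + 2` vertices are pairwise adjacent, then a vertical line meets at most `i + 1` bars,
so that bars with a common vertical line have at most `i` bars between them. -/
lemma few_bars [Finite W] (C : Bars W) (i : ℕ) (A : W → W → Prop)
    (hA : ∀ u v x, u ≠ v → C.At u x → C.At v x → (C.blk u v x).ncard ≤ i → A u v)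
    (hcl : ∀ S : Finset W, S.card = i + 2 → ∃ u ∈ S, ∃ v ∈ S, u ≠ v ∧ ¬ A u v) {u v : W} {x : ℝ}
    (huv : u ≠ v) (hu : C.At u x) (hv : C.At v x) : A u v := by
  classical
  set T : Finset W := (Set.toFinite {w | C.At w x}).toFinset with hT
  have memT : ∀ w, w ∈ T ↔ C.At w x := by
    intro w
    rw [hT, Set.Finite.mem_toFinset]
    rfl
  have hinj : ∀ v ∈ T, ∀ w ∈ T, C.h v = C.h w → v = w := by
    intro v hv w hw h
    rw [memT] at hv hw
    by_contra hne
    exact C.ne v w x hne hv.1 hv.2 hw.1 hw.2 h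
  have hcard : T.card ≤ i + 1 := by
    by_contra h1
    obtain ⟨S, h2, h3, h4⟩ := lowest T C.h hinj (i + 2) (by omega)
    obtain ⟨a, ha, b, hb, hab, hn⟩ := hcl S h3
    apply hn
    refine hA a b x hab ((memT a).1 (h2 ha)) ((memT b).1 (h2 hb)) ?_
    have h5 : C.blk a b x ⊆ ((S.erase a).erase b : Finset W) := by
      rintro w ⟨h6, h7, h8, h9, h10⟩
      rw [Finset.mem_coe, Finset.mem_erase, Finset.mem_erase]
      refine ⟨h7, h6, ?_⟩
      by_contra h11
      have h12 := h4 a ha w ((memT w).2 h8) h11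
      have h13 := h4 b hb w ((memT w).2 h8) h11
      exact absurd h10 (not_le.2 (max_lt h12 h13))
    have h6 := Set.ncard_le_ncard h5 (Set.toFinite _)
    rw [Set.ncard_coe_finset, Finset.card_erase_of_mem
      (Finset.mem_erase.2 ⟨hab.symm, hb⟩), Finset.card_erase_of_mem ha] at h6
    omega
  refine hA u v x huv hu hv ?_
  have h5 : C.blk u v x ⊆ (T.erase u : Finset W) := by
    rintro w ⟨h6, h7, h8, h9, h10⟩
    rw [Finset.mem_coe, Finset.mem_erase]
    exact ⟨h6, (memT w).2 h8⟩
  have h6 := Set.ncard_le_ncard h5 (Set.toFinite _)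
  rw [Set.ncard_coe_finset, Finset.card_erase_of_mem ((memT u).2 hu)] at h6
  omega

/-- bars with the visibility graph `C₄ + K_j` -/
noncomputable def fourBars (j : ℕ) : Bars (Fin 4 ⊕ Fin j) where
  a := Sum.elim ![0, 0, 0, 3] fun _ => -1
  b := Sum.elim ![10, 5, 5, 20] fun _ => 30
  h := Sum.elim ![0, 1, j + 2, j + 3] fun t => 2 + t
  lt := by
    rintro (w | w)
    · fin_cases w <;> simp <;> norm_num
    · simp; norm_num
  ne := by
    have hj : ∀ t : Fin j, (t : ℝ) < j := fun t => by exact_mod_cast t.2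
    have hj0 : ∀ t : Fin j, (0 : ℝ) ≤ t := fun t => Nat.cast_nonneg _
    have hjj : (0 : ℝ) ≤ j := Nat.cast_nonneg _
    rintro (u | u) (v | v) x huv _ _ _ _
    · fin_cases u <;> fin_cases v <;> simp at huv ⊢ <;> linarith
    · have h1 := hj v
      have h2 := hj0 v
      fin_cases u <;> simp <;> linarith
    · have h1 := hj u
      have h2 := hj0 u
      fin_cases v <;> simp <;> linarith
    · simp only [Sum.elim_inr]
      intro h
      apply huv
      have : (u : ℝ) = v := by linarith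
      have : (u : ℕ) = v := by exact_mod_cast this
      rw [Fin.ext this]

lemma ncard_inr (j : ℕ) : ((Sum.inr '' (univ : Set (Fin j)) : Set (Fin 4 ⊕ Fin j))).ncard = j := by
  rw [Set.ncard_image_of_injective _ Sum.inr_injective, Set.ncard_univ, Nat.card_eq_fintype_card,
    Fintype.card_fin]

lemma four_at_inr (j : ℕ) (t : Fin j) (x : ℝ) : (fourBars j).At (Sum.inr t) x ↔ -1 ≤ x ∧ x ≤ 30 := by
  simp [Bars.At, fourBars]

lemma four_at_0 (j : ℕ) (x : ℝ) : (fourBars j).At (Sum.inl 0) x ↔ 0 ≤ x ∧ x ≤ 10 := by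
  simp [Bars.At, fourBars]

lemma four_at_1 (j : ℕ) (x : ℝ) : (fourBars j).At (Sum.inl 1) x ↔ 0 ≤ x ∧ x ≤ 5 := by
  simp [Bars.At, fourBars]

lemma four_at_2 (j : ℕ) (x : ℝ) : (fourBars j).At (Sum.inl 2) x ↔ 0 ≤ x ∧ x ≤ 5 := by
  simp [Bars.At, fourBars]

lemma four_at_3 (j : ℕ) (x : ℝ) : (fourBars j).At (Sum.inl 3) x ↔ 3 ≤ x ∧ x ≤ 20 := by
  simp [Bars.At, fourBars]

lemma four_h_inr (j : ℕ) (t : Fin j) : (fourBars j).h (Sum.inr t) = 2 + t := rfl
lemma four_h_0 (j : ℕ) : (fourBars j).h (Sum.inl 0) = 0 := rfl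
lemma four_h_1 (j : ℕ) : (fourBars j).h (Sum.inl 1) = 1 := rfl
lemma four_h_2 (j : ℕ) : (fourBars j).h (Sum.inl 2) = j + 2 := rfl
lemma four_h_3 (j : ℕ) : (fourBars j).h (Sum.inl 3) = j + 3 := rfl

lemma many_blk (j : ℕ) (u v c : Fin 4) (x : ℝ) (hcu : c ≠ u) (hcv : c ≠ v)
    (hx : -1 ≤ x ∧ x ≤ 30) (hc : (fourBars j).At (Sum.inl c) x)
    (hu : (fourBars j).h (Sum.inl u) ≤ 1) (hv : (j : ℝ) + 2 ≤ (fourBars j).h (Sum.inl v))
    (hcu' : (fourBars j).h (Sum.inl u) ≤ (fourBars j).h (Sum.inl c))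
    (hcv' : (fourBars j).h (Sum.inl c) ≤ (fourBars j).h (Sum.inl v)) :
    ¬ ((fourBars j).blk (Sum.inl u) (Sum.inl v) x).ncard ≤ j := by
  intro h
  have h1 : insert (Sum.inl c) (Sum.inr '' (univ : Set (Fin j))) ⊆
      (fourBars j).blk (Sum.inl u) (Sum.inl v) x := by
    rintro w (rfl | ⟨t, -, rfl⟩)
    · refine ⟨by simpa using hcu, by simpa using hcv, hc, (min_le_left _ _).trans hcu',
        hcv'.trans (le_max_right _ _)⟩
    · have h2 : (t : ℝ) < j := by exact_mod_cast t.2
      have h3 : (0 : ℝ) ≤ t := Nat.cast_nonneg _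
      refine ⟨by simp, by simp, (four_at_inr j t x).2 hx, (min_le_left _ _).trans ?_,
        le_trans ?_ (le_max_right _ _)⟩
      · rw [four_h_inr]; linarith
      · rw [four_h_inr]; linarith
  have h2 := Set.ncard_le_ncard h1 (Set.toFinite _)
  rw [Set.ncard_insert_of_notMem (by simp) (Set.toFinite _), ncard_inr] at h2
  omega

lemma four_not_02 (j : ℕ) : ¬ (fourBars j).Adj j (Sum.inl 0) (Sum.inl 2) := by
  rintro ⟨x, h1, h2, h3⟩
  rw [four_at_0] at h1
  rw [four_at_2] at h2
  have hjj : (0 : ℝ) ≤ j := Nat.cast_nonneg _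
  refine many_blk j 0 2 1 x (by decide) (by decide) ⟨by linarith, by linarith⟩
    ((four_at_1 j x).2 h2) ?_ ?_ ?_ ?_ h3
  · rw [four_h_0]; norm_num
  · rw [four_h_2]
  · rw [four_h_0, four_h_1]; norm_num
  · rw [four_h_1, four_h_2]; linarith

lemma four_not_13 (j : ℕ) : ¬ (fourBars j).Adj j (Sum.inl 1) (Sum.inl 3) := by
  rintro ⟨x, h1, h2, h3⟩
  rw [four_at_1] at h1
  rw [four_at_3] at h2
  have hjj : (0 : ℝ) ≤ j := Nat.cast_nonneg _
  refine many_blk j 1 3 2 x (by decide) (by decide) ⟨by linarith, by linarith⟩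
    ((four_at_2 j x).2 ⟨by linarith, by linarith⟩) ?_ ?_ ?_ ?_ h3
  · rw [four_h_1]
  · rw [four_h_3]; linarith
  · rw [four_h_1, four_h_2]; linarith
  · rw [four_h_2, four_h_3]; linarith

lemma four_adj (j : ℕ) (u v : Fin 4) (x : ℝ) (hu : (fourBars j).At (Sum.inl u) x)
    (hv : (fourBars j).At (Sum.inl v) x)
    (h : ∀ w : Fin 4, w ≠ u → w ≠ v → (fourBars j).At (Sum.inl w) x →
      (fourBars j).h (Sum.inl w) < min ((fourBars j).h (Sum.inl u)) ((fourBars j).h (Sum.inl v)) ∨
      max ((fourBars j).h (Sum.inl u)) ((fourBars j).h (Sum.inl v)) < (fourBars j).h (Sum.inl w)) :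
    (fourBars j).Adj j (Sum.inl u) (Sum.inl v) := by
  refine ⟨x, hu, hv, ?_⟩
  have h1 : (fourBars j).blk (Sum.inl u) (Sum.inl v) x ⊆ Sum.inr '' (univ : Set (Fin j)) := by
    rintro (w | t) ⟨h2, h3, h4, h5, h6⟩
    · exfalso
      rcases h w (by simpa using h2) (by simpa using h3) h4 with h7 | h7
      · linarith
      · linarith
    · exact ⟨t, mem_univ _, rfl⟩
  have h2 := Set.ncard_le_ncard h1 (Set.toFinite _)
  rwa [ncard_inr] at h2

lemma four_adj_01 (j : ℕ) : (fourBars j).Adj j (Sum.inl 0) (Sum.inl 1) := by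
  have hjj : (0 : ℝ) ≤ j := Nat.cast_nonneg _
  refine four_adj j 0 1 0 ((four_at_0 j 0).2 (by norm_num)) ((four_at_1 j 0).2 (by norm_num)) ?_
  intro w h1 h2 h3
  rw [four_h_0, four_h_1]
  fin_cases w
  · simp at h1
  · simp at h2
  · right
    change _ < (fourBars j).h (Sum.inl 2)
    rw [four_h_2, max_eq_right (by norm_num)]; linarith
  · right
    change _ < (fourBars j).h (Sum.inl 3)
    rw [four_h_3, max_eq_right (by norm_num)]; linarith

lemma four_adj_12 (j : ℕ) : (fourBars j).Adj j (Sum.inl 1) (Sum.inl 2) := by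
  have hjj : (0 : ℝ) ≤ j := Nat.cast_nonneg _
  refine four_adj j 1 2 0 ((four_at_1 j 0).2 (by norm_num)) ((four_at_2 j 0).2 (by norm_num)) ?_
  intro w h1 h2 h3
  rw [four_h_1, four_h_2]
  fin_cases w
  · left
    change (fourBars j).h (Sum.inl 0) < _
    rw [four_h_0, min_eq_left (by linarith)]; norm_num
  · simp at h1
  · simp at h2
  · right
    change _ < (fourBars j).h (Sum.inl 3)
    rw [four_h_3, max_eq_right (by linarith)]; linarith

lemma four_adj_23 (j : ℕ) : (fourBars j).Adj j (Sum.inl 2) (Sum.inl 3) := by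
  have hjj : (0 : ℝ) ≤ j := Nat.cast_nonneg _
  refine four_adj j 2 3 4 ((four_at_2 j 4).2 (by norm_num)) ((four_at_3 j 4).2 (by norm_num)) ?_
  intro w h1 h2 h3
  rw [four_h_2, four_h_3]
  fin_cases w
  · left
    change (fourBars j).h (Sum.inl 0) < _
    rw [four_h_0, min_eq_left (by linarith)]; linarith
  · left
    change (fourBars j).h (Sum.inl 1) < _
    rw [four_h_1, min_eq_left (by linarith)]; linarith
  · simp at h1
  · simp at h2

lemma four_adj_03 (j : ℕ) : (fourBars j).Adj j (Sum.inl 0) (Sum.inl 3) := by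
  have hjj : (0 : ℝ) ≤ j := Nat.cast_nonneg _
  refine four_adj j 0 3 6 ((four_at_0 j 6).2 (by norm_num)) ((four_at_3 j 6).2 (by norm_num)) ?_
  intro w h1 h2 h3
  fin_cases w
  · simp at h1
  · exfalso
    have h4 := (four_at_1 j 6).1 h3
    linarith [h4.2]
  · exfalso
    have h4 := (four_at_2 j 6).1 h3
    linarith [h4.2]
  · simp at h2

lemma Bars.Adj.symm {B : Bars W} {k : ℕ} {u v : W} (h : B.Adj k u v) : B.Adj k v u := by
  obtain ⟨x, h1, h2, h3⟩ := h
  refine ⟨x, h2, h1, ?_⟩
  have : B.blk v u x = B.blk u v x := by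
    ext w
    simp only [Bars.blk, min_comm (B.h v), max_comm (B.h v)]
    exact ⟨fun h => ⟨h.2.1, h.1, h.2.2⟩, fun h => ⟨h.2.1, h.1, h.2.2⟩⟩
  rw [this]
  exact h3

/-- The case `j < i`. -/
lemma case_lt {i j : ℕ} (hij : j < i) : ¬ IsArcVisCircles i ((fourBars j).toArc.graph j) := by
  classical
  intro h
  obtain ⟨C, hC1, hC2⟩ := core (fourBars j) i j h
  have hcl : ∀ S : Finset (Fin 4 ⊕ Fin j), S.card = i + 2 →
      ∃ u ∈ S, ∃ v ∈ S, u ≠ v ∧ ¬ (fourBars j).Adj j u v := by
    intro S hS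
    by_cases h02 : (Sum.inl 0 : Fin 4 ⊕ Fin j) ∈ S ∧ (Sum.inl 2 : Fin 4 ⊕ Fin j) ∈ S
    · exact ⟨_, h02.1, _, h02.2, by simp, four_not_02 j⟩
    by_cases h13 : (Sum.inl 1 : Fin 4 ⊕ Fin j) ∈ S ∧ (Sum.inl 3 : Fin 4 ⊕ Fin j) ∈ S
    · exact ⟨_, h13.1, _, h13.2, by simp, four_not_13 j⟩
    exfalso
    have key : ∀ a b : Fin 4 ⊕ Fin j, a ≠ b → a ∉ S → b ∉ S → False := by
      intro a b hab ha hb
      have h1 : S ⊆ (Finset.univ.erase a).erase b := by
        intro w hw
        rw [Finset.mem_erase, Finset.mem_erase]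
        refine ⟨?_, ?_, Finset.mem_univ _⟩
        · rintro rfl; exact hb hw
        · rintro rfl; exact ha hw
      have h2 := Finset.card_le_card h1
      rw [Finset.card_erase_of_mem (Finset.mem_erase.2 ⟨hab.symm, Finset.mem_univ _⟩),
        Finset.card_erase_of_mem (Finset.mem_univ _), Finset.card_univ, Fintype.card_sum,
        Fintype.card_fin, Fintype.card_fin, hS] at h2
      omega
    rw [not_and_or] at h02 h13
    rcases h02 with h02 | h02 <;> rcases h13 with h13 | h13
    · exact key _ _ (by simp) h02 h13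
    · exact key _ _ (by simp) h02 h13
    · exact key _ _ (by simp) h02 h13
    · exact key _ _ (by simp) h02 h13
  have few : ∀ u v x, u ≠ v → C.At u x → C.At v x → (fourBars j).Adj j u v :=
    fun u v x huv hu hv => few_bars C i _ hC2 hcl huv hu hv
  obtain ⟨x1, p0, p1, -⟩ := hC1 _ _ (by simp) (four_adj_01 j)
  obtain ⟨x2, q1, q2, -⟩ := hC1 _ _ (by simp) (four_adj_12 j)
  obtain ⟨x3, r2, r3, -⟩ := hC1 _ _ (by simp) (four_adj_23 j)
  obtain ⟨x4, s0, s3, -⟩ := hC1 _ _ (by simp) (four_adj_03 j)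
  have n02 : ∀ x, C.At (Sum.inl 0) x → C.At (Sum.inl 2) x → False := fun x h1 h2 =>
    four_not_02 j (few _ _ x (by simp) h1 h2)
  have n13 : ∀ x, C.At (Sum.inl 1) x → C.At (Sum.inl 3) x → False := fun x h1 h2 =>
    four_not_13 j (few _ _ x (by simp) h1 h2)
  simp only [Bars.At] at p0 p1 q1 q2 r2 r3 s0 s3 n02 n13
  rcases lt_or_ge (C.b (Sum.inl 0)) (C.a (Sum.inl 2)) with h1 | h1
  · exact n13 (C.b (Sum.inl 0)) ⟨by linarith, by linarith⟩ ⟨by linarith, by linarith⟩
  rcases lt_or_ge (C.b (Sum.inl 2)) (C.a (Sum.inl 0)) with h2 | h2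
  · exact n13 (C.b (Sum.inl 2)) ⟨by linarith, by linarith⟩ ⟨by linarith, by linarith⟩
  have h3 := C.lt (Sum.inl 0)
  have h4 := C.lt (Sum.inl 2)
  rcases le_total (C.a (Sum.inl 0)) (C.a (Sum.inl 2)) with h5 | h5
  · exact n02 _ ⟨h5, h1⟩ ⟨le_rfl, h4.le⟩
  · exact n02 _ ⟨le_rfl, h3.le⟩ ⟨h5, h2⟩

/-- The case `i < j`. -/
lemma case_gt {i j : ℕ} (hij : i < j) : ∃ M, ∃ B : Bars (Fin M),
    ¬ IsArcVisCircles i (B.toArc.graph j) := by
  obtain ⟨M, ⟨B, hB⟩, hM⟩ := exists_clique hij
  refine ⟨M, B, fun h => hM ?_⟩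
  obtain ⟨C, hC1, -⟩ := core B i j h
  exact ⟨C, fun u v huv => hC1 u v huv (hB u v huv)⟩

lemma graph_isArcVis (B : Bars W) (j : ℕ) : IsArcVis j (B.toArc.graph j) :=
  ⟨B.toArc, B.toArc_len, fun _ _ => Iff.rfl⟩

/-- For all `i ≠ j` there is an arc `j`-visibility graph (with a representation without full
circles) that is not an arc `i`-visibility graph, even if full circles are allowed. -/
theorem result (i j : ℕ) (hij : i ≠ j) : ∃ (V : Type) (_ : Fintype V) (G : SimpleGraph V),
    IsArcVis j G ∧ ¬ IsArcVisCircles i G := by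
  rcases lt_or_gt_of_ne hij with h | h
  · obtain ⟨M, B, hB⟩ := case_gt h
    exact ⟨_, inferInstance, _, graph_isArcVis B j, hB⟩
  · exact ⟨_, inferInstance, _, graph_isArcVis (fourBars j) j, case_lt h⟩

end Pool.Agent.Results.MP_73fdb2_co.NoInclusion
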